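import Pool.Agent.H80.MG.Red

/-!
# Module RR, second part (MP_90f90f_co): reductions of a chain
-/

set_option autoImplicit false

noncomputable section

open Classical Module
open scoped Matrix

namespace Pool.Agent.H80.MG

open Pool.Agent.H52.MG

section
variable {V : Type} [Fintype V] {G : SimpleGraph V} {c : V → V} {s x x' y y' t : V}

/-- crossing pairs of a coarse colouring for a chain -/
lemma chain_cr2 (h : Chain G c s x x' y y' t) {L : Type} (δ : V → L) (hδ : Coarse c δ) :
    cr2 G δ = cr2 (GRc G c x y) δ + (if δ x ≠ δ s then 2 else 0) +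
      (if δ x' ≠ δ y' then 2 else 0) + if δ y ≠ δ t then 2 else 0 := by
  have h1 : cr2 G δ = cr2 (addE (addE (addE (GRc G c x y) x s) x' y') y t) δ := by
    apply cr2_of_iff
    intro u w huw
    simp only [addE, GRc, delS, Set.mem_ofPred_eq]
    have hcuw : c u ≠ c w := fun h => huw (hδ _ _ h)
    constructor
    · intro hadj
      by_cases hu : c u = c x
      · rcases h.oX u w hu (fun k => hcuw (hu.trans k.symm)) hadj with ⟨rfl, rfl⟩ | ⟨rfl, rfl⟩
        · exact Or.inl (Or.inl (Or.inr ⟨hadj.ne, Or.inl ⟨rfl, rfl⟩⟩))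
        · exact Or.inl (Or.inr ⟨hadj.ne, Or.inl ⟨rfl, rfl⟩⟩)
      · by_cases hw : c w = c x
        · rcases h.oX w u hw hu hadj.symm with ⟨rfl, rfl⟩ | ⟨rfl, rfl⟩
          · exact Or.inl (Or.inl (Or.inr ⟨hadj.ne, Or.inr ⟨rfl, rfl⟩⟩))
          · exact Or.inl (Or.inr ⟨hadj.ne, Or.inr ⟨rfl, rfl⟩⟩)
        · by_cases hu' : c u = c y
          · rcases h.oY u w hu' (fun k => hcuw (hu'.trans k.symm)) hadj with
              ⟨rfl, rfl⟩ | ⟨rfl, rfl⟩
            · exact Or.inr ⟨hadj.ne, Or.inl ⟨rfl, rfl⟩⟩
            · exact absurd h.cx hw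
          · by_cases hw' : c w = c y
            · rcases h.oY w u hw' hu' hadj.symm with ⟨rfl, rfl⟩ | ⟨rfl, rfl⟩
              · exact Or.inr ⟨hadj.ne, Or.inr ⟨rfl, rfl⟩⟩
              · exact absurd h.cx hu
            · exact Or.inl (Or.inl (Or.inl ⟨hadj, fun k => k.elim hu hu', fun k => k.elim hw hw'⟩))
    · rintro (((k | ⟨_, ⟨rfl, rfl⟩ | ⟨rfl, rfl⟩⟩) | ⟨_, ⟨rfl, rfl⟩ | ⟨rfl, rfl⟩⟩) |
        ⟨_, ⟨rfl, rfl⟩ | ⟨rfl, rfl⟩⟩)
      · exact k.1
      · exact h.e1
      · exact h.e1.symm
      · exact h.e2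
      · exact h.e2.symm
      · exact h.e3
      · exact h.e3.symm
  have n1 : ¬ (GRc G c x y).Adj x s := fun k => k.2.1 (Or.inl rfl)
  have n2 : ¬ (addE (GRc G c x y) x s).Adj x' y' := by
    rintro (k | ⟨_, ⟨_, k⟩ | ⟨k, _⟩⟩)
    · exact k.2.1 (Or.inl h.cx)
    · exact h.sy (by rw [← k, h.cy])
    · exact h.sx (by rw [← k, h.cx])
  have n3 : ¬ (addE (addE (GRc G c x y) x s) x' y').Adj y t := by
    rintro ((k | ⟨_, ⟨k, _⟩ | ⟨k, _⟩⟩) | ⟨_, ⟨k, _⟩ | ⟨_, k⟩⟩)
    · exact k.2.1 (Or.inr rfl)
    · exact h.xy (by rw [k])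
    · exact h.sy (by rw [k])
    · exact h.xy (by rw [k, h.cx])
    · exact h.tx (by rw [k, h.cx])
  rw [h1, cr2_addE, cr2_addE, cr2_addE]
  simp [n1, n2, n3]

lemma coarse_cRc {L : Type} {d : V → L} (h : Coarse (cRc c s x y) d) (hs : c s ≠ c x)
    (hs' : c s ≠ c y) :
    Coarse c d ∧ (∀ v, c v = c x → d v = d s) ∧ ∀ v, c v = c y → d v = d s := by
  refine ⟨fun u w huw => h _ _ ?_, fun v hv => h _ _ ?_, fun v hv => h _ _ ?_⟩
  · simp only [cRc, huw]
  · simp [cRc, hv, hs, hs']
  · simp [cRc, hv, hs, hs']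

lemma pt_le_one_s2 {L : Type} (G : SimpleGraph V) (d : V → L) (h : pt d < 2) : 0 ≤ s2 G d := by
  unfold s2
  have : (0 : ℤ) ≤ (cr2 G d : ℤ) := by positivity
  omega

/-- splitting both classes of a chain -/
lemma chain_two (h : Chain G c s x x' y y' t) {L : Type} (d : V → L)
    (hd : Coarse (cRc c s x y) d) :
    ∃ d2 : V → Option (Option L), Coarse c d2 ∧ pt d2 = pt d + 2 ∧
      cr2 G d2 = cr2 (GRc G c x y) d + 6 := by
  obtain ⟨h1, h2, h3⟩ := coarse_cRc hd h.sx h.sy
  have c1 : Coarse c (spl {v | c v = c x} d) := coarse_spl h1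
  have c2 : Coarse c (spl {v | c v = c y} (spl {v | c v = c x} d)) := coarse_spl c1
  refine ⟨_, c2, ?_, ?_⟩
  · rw [pt_spl {v | c v = c y} _ y s rfl (fun k => h.sy k),
      pt_spl {v | c v = c x} _ x s rfl (fun k => h.sx k)]
    · exact fun v hv => h2 v hv
    · intro v hv
      have hv' : c v = c y := hv
      simp only [spl, Set.mem_ofPred_eq, hv', h.xy.symm, h.sx, if_false]
      rw [h3 v hv']
  · rw [chain_cr2 h _ c2]
    have e1 : cr2 (GRc G c x y) (spl {v | c v = c y} (spl {v | c v = c x} d)) =
        cr2 (GRc G c x y) d := by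
      apply cr2_of_adj
      intro u w huw
      have hu : ¬ (c u = c x ∨ c u = c y) := huw.2.1
      have hw : ¬ (c w = c x ∨ c w = c y) := huw.2.2
      push Not at hu hw
      simp [spl, hu.1, hu.2, hw.1, hw.2]
    have e2 : spl {v | c v = c y} (spl {v | c v = c x} d) x ≠
        spl {v | c v = c y} (spl {v | c v = c x} d) s := by
      simp [spl, h.xy, h.sx, h.sy]
    have e3 : spl {v | c v = c y} (spl {v | c v = c x} d) x' ≠
        spl {v | c v = c y} (spl {v | c v = c x} d) y' := by
      simp [spl, h.xy, h.cx, h.cy]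
    have e4 : spl {v | c v = c y} (spl {v | c v = c x} d) y ≠
        spl {v | c v = c y} (spl {v | c v = c x} d) t := by
      simp [spl, h.tx, h.ty]
    rw [e1, if_pos e2, if_pos e3, if_pos e4]

end

theorem rchn : T_RCHN := by
  intro V _ G c s x x' y y' t h
  constructor
  · intro hC hst
    constructor
    · intro d hd
      obtain ⟨d2, h1, h2, h3⟩ := chain_two h d hd
      have h4 := Cnd_all hC d2 h1
      unfold s2 at h4 ⊢
      rw [h2, h3] at h4
      push_cast at h4 ⊢
      omega
    · intro d hd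
      -- `Y` has the colour of `s`
      obtain ⟨h1, h2⟩ := coarse_mrg (c := c) (b := s) (a := y) h.sy.symm hd
      have hxx : d x' = d x := h1 _ _ h.cx
      have k0 : cr2 (addE (addE (GRc G c x y) x' s) x' t) d = cr2 (GRc G c x y) d +
          (if d x' ≠ d s then 2 else 0) + if d x' ≠ d t then 2 else 0 := by
        have n1 : ¬ (GRc G c x y).Adj x' s := fun k => k.2.1 (Or.inl h.cx)
        have n2 : ¬ (addE (GRc G c x y) x' s).Adj x' t := by
          rintro (k | ⟨_, ⟨_, k⟩ | ⟨k, _⟩⟩)
          · exact k.2.1 (Or.inl h.cx)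
          · exact hst (by rw [k])
          · exact h.sx (by rw [← k, h.cx])
        rw [cr2_addE, cr2_addE]
        simp [n1, n2]
      by_cases hxt : d x' = d t
      · -- recolour `Y` with the colour of `t`
        set d' : V → V := fun v => if c v = c y then d t else d v with hd'
        have c1 : Coarse c d' := by
          intro u w huw
          simp only [hd', huw]
          rw [h1 u w huw]
        have e1 : cr2 (GRc G c x y) d' = cr2 (GRc G c x y) d := by
          apply cr2_of_adj
          intro u w huw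
          have hu : ¬ (c u = c x ∨ c u = c y) := huw.2.1
          have hw : ¬ (c w = c x ∨ c w = c y) := huw.2.2
          push Not at hu hw
          simp [hd', hu.2, hw.2]
        have f1 : d' x = d x := by simp [hd', h.xy]
        have f2 : d' s = d s := by simp [hd', h.sy]
        have f3 : d' x' = d x := by simp [hd', h.xy, h.cx, hxx]
        have f4 : d' y' = d t := by simp [hd', h.cy]
        have f5 : d' y = d t := by simp [hd']
        have f6 : d' t = d t := by simp [hd', h.ty]
        have k1 := chain_cr2 h d' c1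
        rw [f1, f2, f3, f4, f5, f6, ← hxx, if_neg (not_not.mpr hxt : ¬ (d x' ≠ d t)),
          if_neg (not_not.mpr rfl : ¬ (d t ≠ d t)), add_zero, add_zero, e1] at k1
        rw [if_neg (not_not.mpr hxt : ¬ (d x' ≠ d t)), add_zero] at k0
        have hpt : pt d' = pt d := by
          unfold pt
          congr 1
          ext l
          simp only [Finset.mem_image, Finset.mem_univ, true_and]
          constructor
          · rintro ⟨v, hv⟩
            simp only [hd'] at hv
            split_ifs at hv with hvy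
            · exact ⟨t, hv⟩
            · exact ⟨v, hv⟩
          · rintro ⟨v, hv⟩
            by_cases hvy : c v = c y
            · exact ⟨s, by rw [f2, ← h2 v hvy, hv]⟩
            · exact ⟨v, by simp only [hd', hvy, if_false]; exact hv⟩
        have h4 := hC d' c1
        unfold s2 at h4 ⊢
        rw [hpt, k1, ← k0] at h4
        push_cast at h4 ⊢
        omega
      · -- split off `Y`
        have c1 : Coarse c (spl {v | c v = c y} d) := coarse_spl h1
        have e1 : cr2 (GRc G c x y) (spl {v | c v = c y} d) = cr2 (GRc G c x y) d := by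
          apply cr2_of_adj
          intro u w huw
          have hu : ¬ (c u = c x ∨ c u = c y) := huw.2.1
          have hw : ¬ (c w = c x ∨ c w = c y) := huw.2.2
          push Not at hu hw
          simp [spl, hu.2, hw.2]
        have k1 := chain_cr2 h _ c1
        have e3 : spl {v | c v = c y} d x' ≠ spl {v | c v = c y} d y' := by
          simp [spl, h.xy, h.cx, h.cy]
        have e4 : spl {v | c v = c y} d y ≠ spl {v | c v = c y} d t := by
          simp [spl, h.ty]
        rw [if_pos e3, if_pos e4, e1] at k1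
        rw [if_pos hxt] at k0
        have e2 : (spl {v | c v = c y} d x ≠ spl {v | c v = c y} d s) ↔ d x' ≠ d s := by
          simp [spl, h.xy, h.sy, hxx]
        have h4 := Cnd_all hC _ c1
        have hpt := pt_spl {v | c v = c y} d y s rfl (fun k => h.sy k) (fun v hv => h2 v hv)
        unfold s2 at h4 ⊢
        rw [hpt, k1] at h4
        rw [k0]
        by_cases e5 : d x' ≠ d s
        · rw [if_pos (e2.mpr e5)] at h4
          rw [if_pos e5]
          push_cast at h4 ⊢
          omega
        · rw [if_neg (fun k => e5 (e2.mp k))] at h4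
          rw [if_neg e5]
          push_cast at h4 ⊢
          omega
  · intro hT
    constructor
    · intro d hd
      obtain ⟨d2, h1, h2, h3⟩ := chain_two h d hd
      have : Nonempty V := ⟨s⟩
      have hp := pt_pos d
      have h4 := Tt_all hT d2 h1 (by omega)
      unfold s2 at h4 ⊢
      rw [h2, h3] at h4
      push_cast at h4 ⊢
      omega
    · intro d hd hst
      obtain ⟨h1, h2, h3⟩ := coarse_cRc hd h.sx h.sy
      have k1 := chain_cr2 h d h1
      have f1 : d x = d s := h2 x rfl
      have f2 : d x' = d y' := by rw [h2 x' h.cx, h3 y' h.cy]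
      have f3 : d y = d t := by rw [h3 y rfl, hst]
      rw [if_neg (not_not.mpr f1 : ¬ (d x ≠ d s)), if_neg (not_not.mpr f2 : ¬ (d x' ≠ d y')),
        if_neg (not_not.mpr f3 : ¬ (d y ≠ d t)), add_zero, add_zero, add_zero] at k1
      rcases Nat.lt_or_ge (pt d) 2 with hp | hp
      · exact pt_le_one_s2 _ _ hp
      · have h4 := hT d h1 hp
        unfold s2 at h4 ⊢
        rw [k1] at h4
        omega

end Pool.Agent.H80.MG
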