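import Pool.Agent.H52.MG.Targets
import Pool.Agent.H52.MG.Basic

/-!
# Module GS (MP_90f90f_co): semicontinuity for screw systems and bar frameworks
-/

set_option autoImplicit false

noncomputable section

open Classical Module
open scoped Matrix

namespace Pool.Agent.H80.MG

open Pool.Agent.H52.MG

section
variable {V : Type} [Fintype V]

lemma polC (r : ℚ) : Pol (fun _ : V → Vec => (r : ℝ)) :=
  ⟨MvPolynomial.C r, fun p => by simp⟩

lemma polX (v : V) (i : Fin 3) : Pol (fun p : V → Vec => p v i) :=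
  ⟨MvPolynomial.X (v, i), fun p => by simp⟩

lemma _root_.Pool.Agent.H52.MG.Pol.h80add {f g : (V → Vec) → ℝ} (hf : Pol f) (hg : Pol g) : Pol (fun p => f p + g p) := by
  obtain ⟨P, hP⟩ := hf
  obtain ⟨Q, hQ⟩ := hg
  exact ⟨P + Q, fun p => by simp only [hP, hQ, map_add]⟩

lemma _root_.Pool.Agent.H52.MG.Pol.h80mul {f g : (V → Vec) → ℝ} (hf : Pol f) (hg : Pol g) : Pol (fun p => f p * g p) := by
  obtain ⟨P, hP⟩ := hf
  obtain ⟨Q, hQ⟩ := hg
  exact ⟨P * Q, fun p => by simp only [hP, hQ, map_mul]⟩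

lemma _root_.Pool.Agent.H52.MG.Pol.h80neg {f : (V → Vec) → ℝ} (hf : Pol f) : Pol (fun p => - f p) := by
  obtain ⟨P, hP⟩ := hf
  exact ⟨-P, fun p => by simp only [hP, map_neg]⟩

lemma _root_.Pool.Agent.H52.MG.Pol.h80sub {f g : (V → Vec) → ℝ} (hf : Pol f) (hg : Pol g) : Pol (fun p => f p - g p) := by
  obtain ⟨P, hP⟩ := hf
  obtain ⟨Q, hQ⟩ := hg
  exact ⟨P - Q, fun p => by simp only [hP, hQ, map_sub]⟩

lemma _root_.Pool.Agent.H52.MG.Pol.h80congr {f g : (V → Vec) → ℝ} (hf : Pol f) (h : ∀ p, g p = f p) : Pol g := by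
  obtain ⟨P, hP⟩ := hf
  exact ⟨P, fun p => by rw [h, hP]⟩

/-- semicontinuity for families of subspaces cut out by rational polynomial functionals -/
lemma semi_family (hS : T_SEMI) {W : Type} [AddCommGroup W] [Module ℝ W] {κ ι : Type} [Fintype κ]
    [Fintype ι] (b : Basis κ ℝ W) (φ : ι → (V → Vec) → W →ₗ[ℝ] ℝ)
    (hpol : ∀ i j, Pol (fun p => φ i p (b j))) (N : (V → Vec) → Submodule ℝ W)
    (hN : ∀ p w, w ∈ N p ↔ ∀ i, φ i p w = 0) (p p0 : V → Vec) (hp : Gen p) :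
    finrank ℝ (N p) ≤ finrank ℝ (N p0) := by
  have key : ∀ q : V → Vec, finrank ℝ (N q) =
      finrank ℝ (LinearMap.ker (Matrix.mulVecLin (Matrix.of fun i j => φ i q (b j)))) := by
    intro q
    have h1 : (N q) = (LinearMap.ker (Matrix.mulVecLin
        (Matrix.of fun i j => φ i q (b j)))).comap (b.equivFun : W →ₗ[ℝ] (κ → ℝ)) := by
      ext w
      rw [hN, Submodule.mem_comap, LinearMap.mem_ker, Matrix.mulVecLin_apply]
      have h2 : ∀ i, φ i q w = ((Matrix.of fun i j => φ i q (b j)) *ᵥ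
          ((b.equivFun : W →ₗ[ℝ] (κ → ℝ)) w)) i := by
        intro i
        conv_lhs => rw [← b.sum_equivFun w]
        rw [map_sum]
        simp only [Matrix.mulVec, dotProduct, Matrix.of_apply, map_smul, smul_eq_mul]
        refine Finset.sum_congr rfl fun j _ => ?_
        rw [mul_comm]
        rfl
      constructor
      · intro h
        funext i
        rw [← h2, h i]; rfl
      · intro h i
        rw [h2, h]; rfl
    rw [h1]
    have h3 : (LinearMap.ker (Matrix.mulVecLin (Matrix.of fun i j => φ i q (b j)))).comap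
        (b.equivFun : W →ₗ[ℝ] (κ → ℝ)) = (LinearMap.ker (Matrix.mulVecLin
        (Matrix.of fun i j => φ i q (b j)))).map (b.equivFun.symm : (κ → ℝ) →ₗ[ℝ] W) := by
      rw [Submodule.map_equiv_eq_comap_symm]
      simp
    rw [h3]
    exact LinearEquiv.finrank_map_eq b.equivFun.symm _
  rw [key p, key p0]
  exact hS V ι κ (fun i j p => φ i p (b j)) hpol p p0 hp

/-- basis of the space of configurations -/
def bV (V : Type) [Fintype V] : Basis (Σ _ : V, Fin 3) ℝ (V → Vec) :=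
  Pi.basis (fun _ => Pi.basisFun ℝ (Fin 3))

lemma bV_apply (j : Σ _ : V, Fin 3) (v : V) (i : Fin 3) :
    ∃ r : ℚ, bV V j v i = (r : ℝ) := by
  obtain ⟨u, k⟩ := j
  unfold bV
  rw [Pi.basis_apply]
  by_cases h : v = u
  · subst h
    refine ⟨if i = k then 1 else 0, ?_⟩
    by_cases hik : i = k <;> simp [hik]
  · refine ⟨0, ?_⟩
    simp [h]

/-- basis of the space of assignments of screws -/
def bS (V : Type) [Fintype V] : Basis (Σ _ : V, Fin 3 ⊕ Fin 3) ℝ (V → Scr) :=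
  Pi.basis (fun _ => (Pi.basisFun ℝ (Fin 3)).prod (Pi.basisFun ℝ (Fin 3)))

/-- screws with rational coordinates -/
def RS (S : Scr) : Prop := (∀ i, ∃ r : ℚ, S.1 i = (r : ℝ)) ∧ ∀ i, ∃ r : ℚ, S.2 i = (r : ℝ)

lemma RS.sub {S T : Scr} (hS : RS S) (hT : RS T) : RS (S - T) := by
  constructor
  · intro i
    obtain ⟨r, hr⟩ := hS.1 i
    obtain ⟨s, hs⟩ := hT.1 i
    exact ⟨r - s, by rw [Prod.fst_sub, Pi.sub_apply, hr, hs]; push_cast; ring⟩
  · intro i
    obtain ⟨r, hr⟩ := hS.2 i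
    obtain ⟨s, hs⟩ := hT.2 i
    exact ⟨r - s, by rw [Prod.snd_sub, Pi.sub_apply, hr, hs]; push_cast; ring⟩

lemma bS_RS (j : Σ _ : V, Fin 3 ⊕ Fin 3) (v : V) : RS (bS V j v) := by
  obtain ⟨u, k⟩ := j
  unfold bS
  rw [Pi.basis_apply]
  by_cases h : v = u
  · subst h
    simp only [Pi.single_eq_same]
    rcases k with k | k
    · constructor
      · intro i
        refine ⟨if i = k then 1 else 0, ?_⟩
        by_cases hik : i = k <;> simp [hik]
      · intro i
        exact ⟨0, by simp⟩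
    · constructor
      · intro i
        exact ⟨0, by simp⟩
      · intro i
        refine ⟨if i = k then 1 else 0, ?_⟩
        by_cases hik : i = k <;> simp [hik]
  · rw [Pi.single_eq_of_ne h]
    exact ⟨fun i => ⟨0, by simp⟩, fun i => ⟨0, by simp⟩⟩

lemma Pol_ev {S : Scr} (hS : RS S) (v : V) (k : Fin 3) : Pol (fun p : V → Vec => ev S (p v) k) := by
  obtain ⟨h1, h2⟩ := hS
  obtain ⟨a0, ha0⟩ := h1 0
  obtain ⟨a1, ha1⟩ := h1 1
  obtain ⟨a2, ha2⟩ := h1 2
  obtain ⟨b0, hb0⟩ := h2 0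
  obtain ⟨b1, hb1⟩ := h2 1
  obtain ⟨b2, hb2⟩ := h2 2
  fin_cases k
  · refine (((polC b0).h80add (((polC a1).h80mul (polX v 2)).h80sub
      ((polC a2).h80mul (polX v 1))))).h80congr fun p => ?_
    simp [ev, cross_eq, ha1, ha2, hb0]
  · refine (((polC b1).h80add (((polC a2).h80mul (polX v 0)).h80sub
      ((polC a0).h80mul (polX v 2))))).h80congr fun p => ?_
    simp [ev, cross_eq, ha0, ha2, hb1]
  · refine (((polC b2).h80add (((polC a0).h80mul (polX v 1)).h80sub
      ((polC a1).h80mul (polX v 0))))).h80congr fun p => ?_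
    simp [ev, cross_eq, ha0, ha1, hb2]

lemma Pol_kl {S : Scr} (hS : RS S) (v w : V) :
    Pol (fun p : V → Vec => kl S (lin (p v) (p w))) := by
  have h : ∀ k, Pol (fun p : V → Vec => ev S (p v) k * (p w k - p v k)) := fun k =>
    (Pol_ev hS v k).h80mul ((polX w k).h80sub (polX v k))
  refine (((h 0).h80add (h 1)).h80add (h 2)).h80congr fun p => ?_
  rw [kl_lin, dot3]
  simp only [Pi.sub_apply]

/-- the functionals of a screw system -/
def evL (x : Vec) : Scr →ₗ[ℝ] Vec where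
  toFun S := ev S x
  map_add' S T := ev_add S T x
  map_smul' r S := ev_smul r S x

def klL (T : Scr) : Scr →ₗ[ℝ] ℝ where
  toFun S := kl S T
  map_add' S R := kl_add S R T
  map_smul' r S := kl_smul r S T

lemma gs_aux (hS : T_SEMI) (E : Set (V × V)) (A : Set (V × V × V))
    (B : Set (V × V × V × V)) (p p0 : V → Vec) (hp : Gen p) :
    finrank ℝ (Gsys E A B p) ≤ finrank ℝ (Gsys E A B p0) := by
  -- index type of the equations
  let I := (E × (Fin 3 ⊕ Fin 3)) ⊕ ((A × Fin 3) ⊕ B)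
  let φ : I → (V → Vec) → (V → Scr) →ₗ[ℝ] ℝ := fun i p =>
    match i with
    | Sum.inl (x, Sum.inl k) =>
        (LinearMap.proj k : Vec →ₗ[ℝ] ℝ) ∘ₗ (LinearMap.fst ℝ Vec Vec) ∘ₗ dif x.1.1 x.1.2
    | Sum.inl (x, Sum.inr k) =>
        (LinearMap.proj k : Vec →ₗ[ℝ] ℝ) ∘ₗ (LinearMap.snd ℝ Vec Vec) ∘ₗ dif x.1.1 x.1.2
    | Sum.inr (Sum.inl (x, k)) =>
        (LinearMap.proj k : Vec →ₗ[ℝ] ℝ) ∘ₗ evL (p x.1.2.2) ∘ₗ dif x.1.1 x.1.2.1
    | Sum.inr (Sum.inr x) =>
        klL (lin (p x.1.2.2.1) (p x.1.2.2.2)) ∘ₗ dif x.1.1 x.1.2.1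
  have hb : ∀ (j : Σ _ : V, Fin 3 ⊕ Fin 3) (u w : V), RS (dif u w (bS V j)) := by
    intro j u w
    have : dif u w (bS V j) = bS V j u - bS V j w := rfl
    rw [this]
    exact (bS_RS j u).sub (bS_RS j w)
  refine semi_family hS (bS V) φ ?_ (fun q => Gsys E A B q) ?_ p p0 hp
  · rintro (⟨x, k | k⟩ | ⟨x, k⟩ | x) j
    · obtain ⟨r, hr⟩ := (hb j x.1.1 x.1.2).1 k
      exact (polC r).h80congr fun p => hr
    · obtain ⟨r, hr⟩ := (hb j x.1.1 x.1.2).2 k
      exact (polC r).h80congr fun p => hr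
    · exact Pol_ev (hb j x.1.1 x.1.2.1) x.1.2.2 k
    · exact Pol_kl (hb j x.1.1 x.1.2.1) x.1.2.2.1 x.1.2.2.2
  · intro q S
    constructor
    · intro h
      rintro (⟨x, k | k⟩ | ⟨x, k⟩ | x)
      · have := h.1 x.1 x.2
        change (S x.1.1 - S x.1.2).1 k = 0
        rw [this, sub_self]; rfl
      · have := h.1 x.1 x.2
        change (S x.1.1 - S x.1.2).2 k = 0
        rw [this, sub_self]; rfl
      · have := h.2.1 x.1 x.2
        change ev (S x.1.1 - S x.1.2.1) (q x.1.2.2) k = 0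
        rw [ev_sub, this, sub_self]; rfl
      · exact h.2.2 x.1 x.2
    · intro h
      refine ⟨fun x hx => ?_, fun x hx => ?_, fun x hx => ?_⟩
      · have h1 : ∀ k, (S x.1 - S x.2).1 k = 0 := fun k => h (Sum.inl (⟨x, hx⟩, Sum.inl k))
        have h2 : ∀ k, (S x.1 - S x.2).2 k = 0 := fun k => h (Sum.inl (⟨x, hx⟩, Sum.inr k))
        have : S x.1 - S x.2 = 0 := Prod.ext (funext h1) (funext h2)
        exact sub_eq_zero.mp this
      · have h1 : ∀ k, ev (S x.1 - S x.2.1) (q x.2.2) k = 0 := fun k =>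
          h (Sum.inr (Sum.inl (⟨x, hx⟩, k)))
        have : ev (S x.1 - S x.2.1) (q x.2.2) = 0 := funext h1
        rw [ev_sub] at this
        exact sub_eq_zero.mp this
      · exact h (Sum.inr (Sum.inr ⟨x, hx⟩))

lemma im_aux (hS : T_SEMI) (H : SimpleGraph V) (p p0 : V → Vec) (hp : Gen p) :
    finrank ℝ (infMot H p) ≤ finrank ℝ (infMot H p0) := by
  let φ : {x : V × V // H.Adj x.1 x.2} → (V → Vec) → (V → Vec) →ₗ[ℝ] ℝ := fun x p =>
    { toFun := fun m => (m x.1.1 - m x.1.2) ⬝ᵥ (p x.1.1 - p x.1.2)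
      map_add' := by
        intro a b
        simp only [dot3, Pi.add_apply, Pi.sub_apply]; ring
      map_smul' := by
        intro r a
        simp only [dot3, Pi.smul_apply, Pi.sub_apply, smul_eq_mul, RingHom.id_apply]; ring }
  refine semi_family hS (bV V) φ ?_ (fun q => infMot H q) ?_ p p0 hp
  · rintro ⟨x, hx⟩ j
    have h : ∀ k, Pol (fun p : V → Vec => (bV V j x.1 k - bV V j x.2 k) * (p x.1 k - p x.2 k)) := by
      intro k
      obtain ⟨r, hr⟩ := bV_apply j x.1 k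
      obtain ⟨s, hs⟩ := bV_apply j x.2 k
      refine ((polC (r - s)).h80mul ((polX x.1 k).h80sub (polX x.2 k))).h80congr fun p => ?_
      rw [hr, hs]; push_cast; ring
    refine (((h 0).h80add (h 1)).h80add (h 2)).h80congr fun p => ?_
    change (bV V j x.1 - bV V j x.2) ⬝ᵥ (p x.1 - p x.2) = _
    rw [dot3]
    simp only [Pi.sub_apply]
  · intro q m
    constructor
    · rintro h ⟨x, hx⟩
      exact h x.1 x.2 hx
    · intro h u w huw
      exact h ⟨(u, w), huw⟩

end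

theorem gs (hS : T_SEMI) : T_GS := fun _V _ E A B p p0 hp => gs_aux hS E A B p p0 hp

theorem im (hS : T_SEMI) : T_IM := fun _V _ H p p0 hp => im_aux hS H p p0 hp

end Pool.Agent.H80.MG
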