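import Pool.Agent.H52.MG.Targets
import Pool.Agent.H52.MG.Basic

/-!
# Module RANK (MP_90f90f_co): equivalent configurations of a generic one have the same stresses
-/

set_option autoImplicit false

noncomputable section

open Classical Module
open scoped Matrix

namespace Pool.Agent.H80.MG

open Pool.Agent.H52.MG

section
variable {V : Type} [Fintype V]

/-- the rigidity map -/
def rigM (H : SimpleGraph V) (p : V → Vec) : (V → Vec) →ₗ[ℝ] (V × V → ℝ) where
  toFun m := fun x => if H.Adj x.1 x.2 then (m x.1 - m x.2) ⬝ᵥ (p x.1 - p x.2) else 0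
  map_add' a b := by
    funext x
    by_cases h : H.Adj x.1 x.2
    · simp only [h, if_true, Pi.add_apply, dot3, Pi.sub_apply]; ring
    · simp [h]
  map_smul' r a := by
    funext x
    by_cases h : H.Adj x.1 x.2
    · simp only [h, if_true, Pi.smul_apply, dot3, Pi.sub_apply, smul_eq_mul, RingHom.id_apply]
      ring
    · simp [h]

lemma rigM_apply (H : SimpleGraph V) (p m : V → Vec) (x : V × V) :
    rigM H p m x = if H.Adj x.1 x.2 then (m x.1 - m x.2) ⬝ᵥ (p x.1 - p x.2) else 0 := rfl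

lemma ker_rigM (H : SimpleGraph V) (p : V → Vec) : LinearMap.ker (rigM H p) = infMot H p := by
  ext m
  rw [LinearMap.mem_ker]
  constructor
  · intro h u w huw
    have := congrFun h (u, w)
    rw [rigM_apply, if_pos huw] at this
    exact this
  · intro h
    funext x
    rw [rigM_apply]
    split_ifs with hx
    · exact h _ _ hx
    · rfl

lemma sum_stress (ω : V → V → ℝ) (hs : ∀ u w, ω u w = ω w u) (m q : V → Vec) :
    ∑ x : V × V, ω x.1 x.2 * ((m x.1 - m x.2) ⬝ᵥ (q x.1 - q x.2)) =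
      2 * ∑ u, m u ⬝ᵥ (∑ w, ω u w • (q u - q w)) := by
  have h1 : ∑ x : V × V, ω x.1 x.2 * ((m x.1 - m x.2) ⬝ᵥ (q x.1 - q x.2)) =
      ∑ x : V × V, ω x.1 x.2 * (m x.1 ⬝ᵥ (q x.1 - q x.2)) +
      ∑ x : V × V, ω x.1 x.2 * (m x.2 ⬝ᵥ (q x.2 - q x.1)) := by
    rw [← Finset.sum_add_distrib]
    refine Finset.sum_congr rfl fun x _ => ?_
    simp only [dot3, Pi.sub_apply]; ring
  have h2 : ∑ x : V × V, ω x.1 x.2 * (m x.2 ⬝ᵥ (q x.2 - q x.1)) =
      ∑ x : V × V, ω x.1 x.2 * (m x.1 ⬝ᵥ (q x.1 - q x.2)) := by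
    rw [← Equiv.sum_comp (Equiv.prodComm V V)]
    refine Finset.sum_congr rfl fun x _ => ?_
    simp only [Equiv.prodComm_apply, Prod.fst_swap, Prod.snd_swap]
    rw [hs x.2 x.1]
  have h3 : ∑ x : V × V, ω x.1 x.2 * (m x.1 ⬝ᵥ (q x.1 - q x.2)) =
      ∑ u, m u ⬝ᵥ (∑ w, ω u w • (q u - q w)) := by
    rw [Fintype.sum_prod_type]
    refine Finset.sum_congr rfl fun u _ => ?_
    rw [dotProduct_sum]
    refine Finset.sum_congr rfl fun w _ => ?_
    rw [dotProduct_smul, smul_eq_mul]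
  rw [h1, h2, h3]; ring

lemma stress_iff (H : SimpleGraph V) (ω : V → V → ℝ) (p : V → Vec)
    (hs : ∀ u w, ω u w = ω w u) (h0 : ∀ u w, ¬ H.Adj u w → ω u w = 0) :
    (∀ u, ∑ w, ω u w • (p u - p w) = 0) ↔
      ∀ f ∈ LinearMap.range (rigM H p), ∑ x : V × V, ω x.1 x.2 * f x = 0 := by
  have key : ∀ m, ∑ x : V × V, ω x.1 x.2 * rigM H p m x =
      2 * ∑ u, m u ⬝ᵥ (∑ w, ω u w • (p u - p w)) := by
    intro m
    rw [← sum_stress ω hs]
    refine Finset.sum_congr rfl fun x _ => ?_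
    rw [rigM_apply]
    split_ifs with h
    · rfl
    · rw [h0 _ _ h]; ring
  constructor
  · rintro h _ ⟨m, rfl⟩
    rw [key]
    simp [h]
  · intro h
    have h1 := h _ ⟨fun u => ∑ w, ω u w • (p u - p w), rfl⟩
    rw [key] at h1
    have h2 : ∑ u, (∑ w, ω u w • (p u - p w)) ⬝ᵥ (∑ w, ω u w • (p u - p w)) = 0 := by linarith
    intro u
    have h3 := (Finset.sum_eq_zero_iff_of_nonneg (fun u _ => by
      rw [dot3]; nlinarith [mul_self_nonneg ((∑ w, ω u w • (p u - p w)) 0),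
        mul_self_nonneg ((∑ w, ω u w • (p u - p w)) 1),
        mul_self_nonneg ((∑ w, ω u w • (p u - p w)) 2)])).mp h2 u (Finset.mem_univ u)
    exact dotProduct_self_eq_zero.mp h3

lemma deriv_dsq (D : Derivation ℚ ℝ ℝ) (x y : Vec) :
    D (dsq x y) = 2 * (((fun i => D (x i)) - (fun i => D (y i))) ⬝ᵥ (x - y)) := by
  simp only [dsq, dot3, Pi.sub_apply, map_add, Derivation.leibniz, map_sub, smul_eq_mul]
  ring

lemma range_le (hD : T_DER) (H : SimpleGraph V) (p q : V → Vec) (hp : Gen p) (hE : Eqv H p q) :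
    LinearMap.range (rigM H p) ≤ LinearMap.range (rigM H q) := by
  rintro _ ⟨w, rfl⟩
  obtain ⟨D, hDw⟩ := hD (V × Fin 3) (fun x => p x.1 x.2) hp (fun x => w x.1 x.2)
  refine ⟨fun v i => D (q v i), ?_⟩
  funext x
  rw [rigM_apply, rigM_apply]
  split_ifs with h
  · have h1 := congrArg D (hE _ _ h)
    rw [deriv_dsq, deriv_dsq] at h1
    have h2 : (fun i => D (p x.1 i)) = w x.1 := by
      funext i; exact hDw (x.1, i)
    have h3 : (fun i => D (p x.2 i)) = w x.2 := by
      funext i; exact hDw (x.2, i)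
    rw [h2, h3] at h1
    linarith
  · rfl

end

theorem rank (hD : T_DER) (hI : T_IM) : T_RANK := by
  intro V _ H p q hp hE
  have hle := range_le hD H p q hp hE
  have h1 := Submodule.finrank_mono hle
  have h2 := hI V H p q hp
  have e1 := LinearMap.finrank_range_add_finrank_ker (rigM H p)
  have e2 := LinearMap.finrank_range_add_finrank_ker (rigM H q)
  rw [ker_rigM] at e1 e2
  have hk : finrank ℝ (infMot H q) = finrank ℝ (infMot H p) := by omega
  have heq : LinearMap.range (rigM H p) = LinearMap.range (rigM H q) :=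
    Submodule.eq_of_le_of_finrank_le hle (by omega)
  refine ⟨fun ω hω => ⟨hω.1, hω.2.1, ?_⟩, hk⟩
  rw [stress_iff H ω q hω.1 hω.2.1, ← heq, ← stress_iff H ω p hω.1 hω.2.1]
  exact hω.2.2

end Pool.Agent.H80.MG
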