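import Pool.Agent.H52.MG.Targets
import Pool.Agent.H52.MG.Basic

/-!
# Modules RI and RR (MP_90f90f_co): reductions of class structures
-/

set_option autoImplicit false

noncomputable section

open Classical Module
open scoped Matrix

namespace Pool.Agent.H80.MG

open Pool.Agent.H52.MG

section
variable {V : Type} [Fintype V]

lemma cr2_of_iff {L : Type} (G G' : SimpleGraph V) (δ : V → L)
    (h : ∀ u w, δ u ≠ δ w → (G.Adj u w ↔ G'.Adj u w)) : cr2 G δ = cr2 G' δ := by
  unfold cr2
  congr 1
  ext x
  simp only [Finset.mem_filter, Finset.mem_univ, true_and]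
  constructor
  · rintro ⟨h1, h2⟩
    exact ⟨(h _ _ h2).mp h1, h2⟩
  · rintro ⟨h1, h2⟩
    exact ⟨(h _ _ h2).mpr h1, h2⟩

lemma cr2_of_adj {L L' : Type} (G : SimpleGraph V) (δ : V → L) (δ' : V → L')
    (h : ∀ u w, G.Adj u w → (δ u = δ w ↔ δ' u = δ' w)) : cr2 G δ = cr2 G δ' := by
  unfold cr2
  congr 1
  ext x
  simp only [Finset.mem_filter, Finset.mem_univ, true_and]
  constructor
  · rintro ⟨h1, h2⟩
    exact ⟨h1, fun h3 => h2 ((h _ _ h1).mpr h3)⟩
  · rintro ⟨h1, h2⟩
    exact ⟨h1, fun h3 => h2 ((h _ _ h1).mp h3)⟩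

lemma cr2_addE {L : Type} (H : SimpleGraph V) (a b : V) (δ : V → L) :
    cr2 (addE H a b) δ = cr2 H δ + if (¬ H.Adj a b ∧ δ a ≠ δ b) then 2 else 0 := by
  split_ifs with hc
  · obtain ⟨h1, h2⟩ := hc
    have hab : a ≠ b := fun h => h2 (by rw [h])
    unfold cr2
    have : (Finset.univ.filter fun x : V × V => (addE H a b).Adj x.1 x.2 ∧ δ x.1 ≠ δ x.2) =
        (Finset.univ.filter fun x : V × V => H.Adj x.1 x.2 ∧ δ x.1 ≠ δ x.2) ∪ {(a, b), (b, a)} := by
      ext x
      simp only [addE, Finset.mem_filter, Finset.mem_univ, true_and, Finset.mem_union,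
        Finset.mem_insert, Finset.mem_singleton]
      constructor
      · rintro ⟨h3 | ⟨h3, h4 | h4⟩, h5⟩
        · exact Or.inl ⟨h3, h5⟩
        · exact Or.inr (Or.inl (Prod.ext h4.1 h4.2))
        · exact Or.inr (Or.inr (Prod.ext h4.1 h4.2))
      · rintro (h3 | h3 | h3)
        · exact ⟨Or.inl h3.1, h3.2⟩
        · subst h3
          exact ⟨Or.inr ⟨hab, Or.inl ⟨rfl, rfl⟩⟩, h2⟩
        · subst h3
          exact ⟨Or.inr ⟨hab.symm, Or.inr ⟨rfl, rfl⟩⟩, h2.symm⟩
    rw [this, Finset.card_union_of_disjoint, Finset.card_pair]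
    · intro h
      exact hab (congrArg Prod.fst h)
    · rw [Finset.disjoint_left]
      intro x hx hx'
      simp only [Finset.mem_filter, Finset.mem_univ, true_and] at hx
      simp only [Finset.mem_insert, Finset.mem_singleton] at hx'
      rcases hx' with h | h
      · subst h; exact h1 hx.1
      · subst h; exact h1 hx.1.symm
  · rw [add_zero]
    apply cr2_of_iff
    intro u w huw
    simp only [addE]
    constructor
    · rintro (h3 | ⟨h3, h4 | h4⟩)
      · exact h3
      · obtain ⟨rfl, rfl⟩ := h4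
        by_contra h5
        exact hc ⟨h5, huw⟩
      · obtain ⟨rfl, rfl⟩ := h4
        by_contra h5
        exact hc ⟨fun h6 => h5 h6.symm, huw.symm⟩
    · exact Or.inl

/-- colouring obtained by splitting off `X` -/
def spl {L : Type} (X : Set V) (d : V → L) : V → Option L := fun v => if v ∈ X then none else some (d v)

lemma pt_spl {L : Type} (X : Set V) (d : V → L) (a b : V) (ha : a ∈ X) (hb : b ∉ X)
    (hX : ∀ v ∈ X, d v = d b) : pt (spl X d) = pt d + 1 := by
  unfold pt
  have : Finset.univ.image (spl X d) = insert none ((Finset.univ.image d).image some) := by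
    ext l
    simp only [Finset.mem_image, Finset.mem_univ, true_and, Finset.mem_insert, spl]
    constructor
    · rintro ⟨v, hv⟩
      split_ifs at hv with h
      · exact Or.inl hv.symm
      · exact Or.inr ⟨d v, ⟨v, rfl⟩, hv⟩
    · rintro (h | ⟨_, ⟨v, rfl⟩, h⟩)
      · exact ⟨a, by rw [if_pos ha, h]⟩
      · by_cases hv : v ∈ X
        · exact ⟨b, by rw [if_neg hb, ← hX v hv, h]⟩
        · exact ⟨v, by rw [if_neg hv, h]⟩
  have h2 : (Finset.univ.image (spl X d)).card = (Finset.univ.image d).card + 1 := by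
    rw [this, Finset.card_insert_of_notMem (by simp), Finset.card_image_of_injective _
      (Option.some_injective L)]
  rw [← h2]
  congr
  exact Subsingleton.elim _ _

/-- merging `a` into the class of `b` -/
lemma coarse_mrg {L : Type} {c : V → V} {b a : V} {d : V → L} (hab : c a ≠ c b)
    (h : Coarse (mrg c b a) d) : Coarse c d ∧ ∀ v, c v = c a → d v = d b := by
  constructor
  · intro u w huw
    apply h
    simp only [mrg, huw]
  · intro v hv
    apply h
    simp only [mrg, hv, if_true, hab.symm, if_false]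

lemma coarse_spl {L : Type} {c : V → V} {a : V} {d : V → L} (h : Coarse c d) :
    Coarse c (spl {v | c v = c a} d) := by
  intro u w huw
  simp only [spl, Set.mem_ofPred_eq, huw]
  rw [h u w huw]

/-- the two part colouring -/
lemma two_part (G : SimpleGraph V) (c : V → V) (a b : V) (hab : c a ≠ c b) :
    Coarse c (fun v => decide (c v = c a)) ∧ pt (fun v => decide (c v = c a)) = 2 := by
  constructor
  · intro u w huw
    simp only [huw]
  · unfold pt
    have : Finset.univ.image (fun v => decide (c v = c a)) = {true, false} := by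
      ext l
      simp only [Finset.mem_image, Finset.mem_univ, true_and, Finset.mem_insert,
        Finset.mem_singleton]
      constructor
      · rintro ⟨v, rfl⟩
        by_cases h : c v = c a <;> simp [h]
      · rintro (rfl | rfl)
        · exact ⟨a, by simp⟩
        · exact ⟨b, by simp [hab.symm]⟩
    have h2 : (Finset.univ.image (fun v => decide (c v = c a))).card = 2 := by
      rw [this]; rfl
    rw [← h2]
    congr
    exact Subsingleton.elim _ _

lemma dgc_zero {G : SimpleGraph V} {c : V → V} {a : V} (h : dgc G c a = 0) (u w : V)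
    (hu : c u = c a) (hw : c w ≠ c a) : ¬ G.Adj u w := by
  intro hadj
  unfold dgc at h
  rw [Finset.card_eq_zero] at h
  have : (u, w) ∈ Finset.filter (fun x : V × V => c x.1 = c a ∧ c x.2 ≠ c a ∧ G.Adj x.1 x.2)
      Finset.univ := by simp [hu, hw, hadj]
  rw [h] at this
  simp at this

lemma dgc_one {G : SimpleGraph V} {c : V → V} {a b : V} (h : dgc G c a = 1) (hab : c a ≠ c b)
    (hadj : G.Adj a b) (u w : V) (hu : c u = c a) (hw : c w ≠ c a) (h' : G.Adj u w) :
    u = a ∧ w = b := by
  unfold dgc at h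
  rw [Finset.card_eq_one] at h
  obtain ⟨x, hx⟩ := h
  have h1 : (u, w) ∈ Finset.filter (fun x : V × V => c x.1 = c a ∧ c x.2 ≠ c a ∧ G.Adj x.1 x.2)
      Finset.univ := by simp [hu, hw, h']
  have h2 : (a, b) ∈ Finset.filter (fun x : V × V => c x.1 = c a ∧ c x.2 ≠ c a ∧ G.Adj x.1 x.2)
      Finset.univ := by simp [hab.symm, hadj]
  rw [hx, Finset.mem_singleton] at h1 h2
  have h3 := h1.trans h2.symm
  exact ⟨congrArg Prod.fst h3, congrArg Prod.snd h3⟩

end

theorem riso : T_RISO := by
  intro V _ G c a b k hab hdg hC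
  constructor
  · obtain ⟨h1, h2⟩ := two_part G c a b hab
    have h3 := Cnd_all hC _ h1
    have h4 : cr2 G (fun v => decide (c v = c a)) = 0 := by
      unfold cr2
      rw [Finset.card_eq_zero]
      ext x
      simp only [Finset.mem_filter, Finset.mem_univ, true_and, Finset.notMem_empty, iff_false,
        not_and]
      intro h5 h6
      by_cases h7 : c x.1 = c a
      · have h8 : c x.2 ≠ c a := by
          intro h8; apply h6; simp [h7, h8]
        exact dgc_zero hdg _ _ h7 h8 h5
      · have h8 : c x.2 = c a := by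
          by_contra h8; apply h6; simp [h7, h8]
        exact dgc_zero hdg _ _ h8 h7 h5.symm
    unfold s2 at h3
    rw [h4, h2] at h3
    push_cast at h3
    omega
  · intro d hd
    obtain ⟨h1, h2⟩ := coarse_mrg hab hd
    have h3 := Cnd_all hC _ (coarse_spl (a := a) h1)
    have h4 := pt_spl {v | c v = c a} d a b rfl (fun h => hab h.symm) (fun v hv => h2 v hv)
    have h5 : cr2 G (spl {v | c v = c a} d) = cr2 G d := by
      apply cr2_of_adj
      intro u w huw
      simp only [spl, Set.mem_ofPred_eq]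
      by_cases hu : c u = c a <;> by_cases hw : c w = c a
      · simp [hu, hw, h2 u hu, h2 w hw]
      · exact absurd huw (dgc_zero hdg _ _ hu hw)
      · exact absurd huw.symm (dgc_zero hdg _ _ hw hu)
      · simp [hu, hw]
    unfold s2 at h3 ⊢
    rw [h4, h5] at h3
    push_cast at h3
    omega

theorem rpen : T_RPEN := by
  intro V _ G c a b k hab hadj hdg hC
  -- crossing pairs of a coarse colouring
  have key : ∀ {L : Type} (δ : V → L), Coarse c δ →
      cr2 G δ = cr2 (delS G {v | c v = c a}) δ + if δ a ≠ δ b then 2 else 0 := by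
    intro L δ hδ
    have h1 : cr2 G δ = cr2 (addE (delS G {v | c v = c a}) a b) δ := by
      apply cr2_of_iff
      intro u w huw
      simp only [addE, delS, Set.mem_ofPred_eq]
      constructor
      · intro h
        by_cases hu : c u = c a
        · have hw : c w ≠ c a := fun hw => huw (hδ _ _ (hu.trans hw.symm))
          obtain ⟨rfl, rfl⟩ := dgc_one hdg hab hadj u w hu hw h
          exact Or.inr ⟨h.ne, Or.inl ⟨rfl, rfl⟩⟩
        · by_cases hw : c w = c a
          · obtain ⟨rfl, rfl⟩ := dgc_one hdg hab hadj w u hw hu h.symm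
            exact Or.inr ⟨h.ne, Or.inr ⟨rfl, rfl⟩⟩
          · exact Or.inl ⟨h, hu, hw⟩
      · rintro (h | ⟨_, ⟨rfl, rfl⟩ | ⟨rfl, rfl⟩⟩)
        · exact h.1
        · exact hadj
        · exact hadj.symm
    rw [h1, cr2_addE]
    congr 1
    have : ¬ (delS G {v | c v = c a}).Adj a b := fun h => h.2.1 rfl
    simp [this]
  constructor
  · obtain ⟨h1, h2⟩ := two_part G c a b hab
    have h3 := Cnd_all hC _ h1
    have h4 : cr2 (delS G {v | c v = c a}) (fun v => decide (c v = c a)) = 0 := by
      unfold cr2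
      rw [Finset.card_eq_zero]
      ext x
      simp only [Finset.mem_filter, Finset.mem_univ, true_and, Finset.notMem_empty, iff_false,
        not_and]
      intro h5 h6
      apply h6
      have h7 : ¬ c x.1 = c a := h5.2.1
      have h8 : ¬ c x.2 = c a := h5.2.2
      simp [h7, h8]
    have h5 := key _ h1
    rw [h4] at h5
    have h6 : decide (c a = c a) ≠ decide (c b = c a) := by
      simp [hab.symm]
    rw [if_pos h6] at h5
    unfold s2 at h3
    rw [h5, h2] at h3
    push_cast at h3
    omega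
  · intro d hd
    obtain ⟨h1, h2⟩ := coarse_mrg hab hd
    have h3 := Cnd_all hC _ (coarse_spl (a := a) h1)
    have h4 := pt_spl {v | c v = c a} d a b rfl (fun h => hab h.symm) (fun v hv => h2 v hv)
    have h5 := key _ (coarse_spl (a := a) h1)
    have h6 := key _ h1
    have h7 : cr2 (delS G {v | c v = c a}) (spl {v | c v = c a} d) =
        cr2 (delS G {v | c v = c a}) d := by
      apply cr2_of_adj
      intro u w huw
      have hu : ¬ c u = c a := huw.2.1
      have hw : ¬ c w = c a := huw.2.2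
      simp [spl, hu, hw]
    have h8 : spl {v | c v = c a} d a ≠ spl {v | c v = c a} d b := by
      simp [spl, hab.symm]
    have h9 : ¬ (d a ≠ d b) := by
      simp [h2 a rfl]
    rw [if_pos h8, h7] at h5
    rw [if_neg h9] at h6
    unfold s2 at h3 ⊢
    rw [h4, h5] at h3
    rw [h6]
    push_cast at h3 ⊢
    omega

theorem rdel : T_RDEL := by
  intro V _ G c a b k hadj hd hC d hcd
  have h1 : cr2 G d = cr2 (addE (delE G a b) a b) d := by
    apply cr2_of_iff
    intro u w huw
    simp only [addE, delE]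
    constructor
    · intro h
      by_cases h1 : u = a ∧ w = b
      · exact Or.inr ⟨h.ne, Or.inl h1⟩
      · by_cases h2 : u = b ∧ w = a
        · exact Or.inr ⟨h.ne, Or.inr h2⟩
        · exact Or.inl ⟨h, h1, h2⟩
    · rintro (h | ⟨_, ⟨rfl, rfl⟩ | ⟨rfl, rfl⟩⟩)
      · exact h.1
      · exact hadj
      · exact hadj.symm
  rw [cr2_addE] at h1
  have h2 : ¬ (delE G a b).Adj a b := fun h => h.2.1 ⟨rfl, rfl⟩
  by_cases h3 : d a = d b
  · have h4 : (if (¬ (delE G a b).Adj a b ∧ d a ≠ d b) then 2 else 0) = 0 := by simp [h3]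
    rw [h4] at h1
    have h5 := hC d hcd
    unfold s2 at h5 ⊢
    rw [h1] at h5
    push_cast at h5
    omega
  · have h4 : (if (¬ (delE G a b).Adj a b ∧ d a ≠ d b) then 2 else 0) = 2 := by simp [h2, h3]
    rw [h4] at h1
    have h5 := hd d hcd h3
    unfold s2 at h5 ⊢
    rw [h1] at h5
    push_cast at h5
    omega

theorem rred : T_RRED := by
  intro V _ G c x₁ x₂ y z j hx hy hz hyz e1 e2 hout hnadj hd hC d hcd
  obtain ⟨h1, h2⟩ := coarse_mrg (c := c) (b := y) (a := x₁) hy.symm hcd
  have hX : cls c x₁ = {v | c v = c x₁} := rfl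
  have hyz' : y ≠ z := fun h => hyz (by rw [h])
  -- crossing pairs of a coarse colouring
  have key : ∀ {L : Type} (δ : V → L), Coarse c δ →
      cr2 G δ = cr2 (delS G (cls c x₁)) δ + (if δ x₁ ≠ δ y then 2 else 0) +
        if δ x₂ ≠ δ z then 2 else 0 := by
    intro L δ hδ
    have h1 : cr2 G δ = cr2 (addE (addE (delS G (cls c x₁)) x₁ y) x₂ z) δ := by
      apply cr2_of_iff
      intro u w huw
      simp only [addE, delS, hX, Set.mem_ofPred_eq]
      constructor
      · intro h
        by_cases hu : c u = c x₁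
        · have hw : c w ≠ c x₁ := fun hw => huw (hδ _ _ (hu.trans hw.symm))
          rcases hout u w hu hw h with ⟨rfl, rfl⟩ | ⟨rfl, rfl⟩
          · exact Or.inl (Or.inr ⟨h.ne, Or.inl ⟨rfl, rfl⟩⟩)
          · exact Or.inr ⟨h.ne, Or.inl ⟨rfl, rfl⟩⟩
        · by_cases hw : c w = c x₁
          · rcases hout w u hw hu h.symm with ⟨rfl, rfl⟩ | ⟨rfl, rfl⟩
            · exact Or.inl (Or.inr ⟨h.ne, Or.inr ⟨rfl, rfl⟩⟩)
            · exact Or.inr ⟨h.ne, Or.inr ⟨rfl, rfl⟩⟩
          · exact Or.inl (Or.inl ⟨h, hu, hw⟩)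
      · rintro ((h | ⟨_, ⟨rfl, rfl⟩ | ⟨rfl, rfl⟩⟩) | ⟨_, ⟨rfl, rfl⟩ | ⟨rfl, rfl⟩⟩)
        · exact h.1
        · exact e1
        · exact e1.symm
        · exact e2
        · exact e2.symm
    rw [h1, cr2_addE, cr2_addE]
    have h3 : ¬ (delS G (cls c x₁)).Adj x₁ y := fun h => h.2.1 rfl
    have h4 : ¬ (addE (delS G (cls c x₁)) x₁ y).Adj x₂ z := by
      rintro (h | ⟨_, ⟨_, h⟩ | ⟨h, _⟩⟩)
      · exact h.2.1 hx.symm
      · exact hyz' h.symm
      · exact hy (by rw [← h, hx])
    simp [h3, h4]
  -- crossing pairs of the reduced graph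
  have hred : cr2 (addE (delS G (cls c x₁)) y z) d =
      cr2 (delS G (cls c x₁)) d + if d y ≠ d z then 2 else 0 := by
    rw [cr2_addE]
    have : ¬ (delS G (cls c x₁)).Adj y z := fun h => hnadj h.1
    simp [this]
  have hx1 : d x₁ = d y := h2 x₁ rfl
  have hx2 : d x₂ = d y := h2 x₂ hx.symm
  have k1 := key d h1
  rw [if_neg (by simp [hx1]), hx2, add_zero, ← hred] at k1
  by_cases hdz : d y = d z
  · rcases Nat.lt_or_ge (pt d) 2 with hp | hp
    · unfold s2
      have : (0 : ℤ) ≤ (cr2 (addE (delS G (cls c x₁)) y z) d : ℤ) := by positivity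
      omega
    · have h5 := hd d h1 hp hx1 (hx1.trans hdz)
      unfold s2 at h5 ⊢
      rw [← k1]
      exact h5
  · have h3 := Cnd_all hC _ (coarse_spl (a := x₁) h1)
    have h4 := pt_spl {v | c v = c x₁} d x₁ y rfl (fun h => hy h) (fun v hv => h2 v hv)
    have k2 := key _ (coarse_spl (a := x₁) h1)
    have h7 : cr2 (delS G (cls c x₁)) (spl {v | c v = c x₁} d) = cr2 (delS G (cls c x₁)) d := by
      apply cr2_of_adj
      intro u w huw
      have hu : ¬ c u = c x₁ := huw.2.1
      have hw : ¬ c w = c x₁ := huw.2.2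
      simp [spl, hu, hw]
    have h8 : spl {v | c v = c x₁} d x₁ ≠ spl {v | c v = c x₁} d y := by
      simp [spl, hy]
    have h9 : spl {v | c v = c x₁} d x₂ ≠ spl {v | c v = c x₁} d z := by
      simp [spl, hz, hx.symm]
    rw [if_pos h8, if_pos h9, h7] at k2
    rw [if_pos hdz] at hred
    unfold s2 at h3 ⊢
    rw [h4, k2] at h3
    rw [hred]
    push_cast at h3 ⊢
    omega

end Pool.Agent.H80.MG
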