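import Pool.Agent.H52.MG.Targets
import Pool.Agent.H52.MG.Basic

/-!
# Module SEMI (MP_90f90f_co): kernels of rational polynomial matrices are smallest at generic
configurations
-/

set_option autoImplicit false

noncomputable section

open Classical Module
open scoped Matrix

namespace Pool.Agent.H80.MG

open Pool.Agent.H52.MG

/-- the columns of a real matrix are independent iff the Gram determinant does not vanish -/
lemma gram_ne_zero {ι κ : Type} [Fintype ι] [Fintype κ] (M : Matrix ι κ ℝ)
    (h : LinearIndependent ℝ M.col) : (Mᵀ * M).det ≠ 0 := by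
  intro h0
  obtain ⟨v, hv, hv0⟩ := Matrix.exists_mulVec_eq_zero_iff.mpr h0
  have h1 : (M *ᵥ v) ⬝ᵥ (M *ᵥ v) = 0 := by
    have : (Mᵀ *ᵥ (M *ᵥ v)) = 0 := by rw [Matrix.mulVec_mulVec, hv0]
    rw [Matrix.dotProduct_mulVec, ← Matrix.mulVec_transpose, this, zero_dotProduct]
  have h2 : M *ᵥ v = 0 := dotProduct_self_eq_zero.mp h1
  have h3 : Function.Injective M.mulVec := Matrix.mulVec_injective_iff.mpr h
  exact hv (h3 (by rw [h2, Matrix.mulVec_zero]))

lemma indep_of_gram {ι κ : Type} [Fintype ι] [Fintype κ] (M : Matrix ι κ ℝ)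
    (h : (Mᵀ * M).det ≠ 0) : LinearIndependent ℝ M.col := by
  rw [← Matrix.mulVec_injective_iff]
  intro v w hvw
  have h1 : M *ᵥ (v - w) = 0 := by
    rw [Matrix.mulVec_sub]; exact sub_eq_zero.mpr hvw
  by_contra hne
  apply h
  rw [← Matrix.exists_mulVec_eq_zero_iff]
  exact ⟨v - w, sub_ne_zero.mpr hne, by rw [← Matrix.mulVec_mulVec, h1, Matrix.mulVec_zero]⟩

theorem semi : T_SEMI := by
  intro V _ ι κ _ _ a ha p p0 hp
  choose P hP using ha
  set M : (V → Vec) → Matrix ι κ ℝ := fun p => Matrix.of fun i j => a i j p with hM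
  have hMp : ∀ p, M p = (Matrix.of P).map
      (MvPolynomial.aeval (fun x : V × Fin 3 => p x.1 x.2) : MvPolynomial (V × Fin 3) ℚ →ₐ[ℚ] ℝ) := by
    intro p
    ext i j
    simp [hM, hP]
  -- rank comparison
  have hrank : finrank ℝ (LinearMap.range (M p0).mulVecLin) ≤
      finrank ℝ (LinearMap.range (M p).mulVecLin) := by
    rw [Matrix.range_mulVecLin, Matrix.range_mulVecLin]
    obtain ⟨κ', f, hf, hspan, hli⟩ := exists_linearIndependent' ℝ (M p0).col
    have : Finite κ' := Finite.of_injective f hf
    have : Fintype κ' := Fintype.ofFinite κ'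
    -- the polynomial Gram determinant
    set N : (V → Vec) → Matrix ι κ' ℝ := fun p => (M p).submatrix id f with hN
    have hcol : ∀ p, (N p).col = (M p).col ∘ f := by
      intro p; rfl
    set PN : Matrix ι κ' (MvPolynomial (V × Fin 3) ℚ) := (Matrix.of P).submatrix id f with hPN
    have hNp : ∀ p, ((N p)ᵀ * N p).det =
        MvPolynomial.aeval (fun x : V × Fin 3 => p x.1 x.2) ((PNᵀ * PN).det) := by
      intro p
      rw [AlgHom.map_det]
      congr 1
      have : N p = PN.map (MvPolynomial.aeval (fun x : V × Fin 3 => p x.1 x.2) :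
          MvPolynomial (V × Fin 3) ℚ →ₐ[ℚ] ℝ) := by
        rw [hN, hPN]; simp only [hMp]; rfl
      rw [this]
      ext i j
      simp [Matrix.mul_apply, map_sum, map_mul]
    have h0 : ((N p0)ᵀ * N p0).det ≠ 0 := by
      apply gram_ne_zero
      rw [hcol]; exact hli
    have h1 : (PNᵀ * PN).det ≠ 0 := by
      intro h
      apply h0
      rw [hNp, h, map_zero]
    have h2 : ((N p)ᵀ * N p).det ≠ 0 := by
      rw [hNp]
      intro h
      exact h1 (AlgebraicIndependent.eq_zero_of_aeval_eq_zero hp _ h)
    have h3 : LinearIndependent ℝ ((M p).col ∘ f) := by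
      rw [← hcol]; exact indep_of_gram _ h2
    calc finrank ℝ (Submodule.span ℝ (Set.range (M p0).col))
        = finrank ℝ (Submodule.span ℝ (Set.range ((M p0).col ∘ f))) := by rw [hspan]
      _ = Fintype.card κ' := finrank_span_eq_card hli
      _ = finrank ℝ (Submodule.span ℝ (Set.range ((M p).col ∘ f))) := (finrank_span_eq_card h3).symm
      _ ≤ _ := by
        apply Submodule.finrank_mono
        apply Submodule.span_mono
        rintro _ ⟨k, rfl⟩
        exact ⟨f k, rfl⟩
  have e1 := LinearMap.finrank_range_add_finrank_ker (M p).mulVecLin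
  have e2 := LinearMap.finrank_range_add_finrank_ker (M p0).mulVecLin
  change finrank ℝ (LinearMap.ker (M p).mulVecLin) ≤ finrank ℝ (LinearMap.ker (M p0).mulVecLin)
  omega

end Pool.Agent.H80.MG
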